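import Mathlib

/-!
# Integral kernel vectors with small entries from kernel vectors modulo a large prime

If the rows of an integral matrix with `n` columns have `ℓ¹`-norm at most `r`, and the matrix has a
nonzero kernel vector modulo a prime number `ℓ > r ^ n`, then it has a nonzero integral kernel
vector with entries of absolute value at most `r ^ (n - 1)`.
-/

set_option autoImplicit false

namespace Pool.Agent.D0H66.MK

open Finset Matrix

/-- The determinant is bounded by the product of the `ℓ¹`-norms of the rows. -/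
theorem abs_det_le {n : Type*} [Fintype n] [DecidableEq n] (M : Matrix n n ℤ) :
    |M.det| ≤ ∏ i, ∑ j, |M i j| := by
  classical
  rw [← Matrix.det_transpose, Matrix.det_apply]
  refine (Finset.abs_sum_le_sum_abs _ _).trans ?_
  have h1 : ∀ σ : Equiv.Perm n, |Equiv.Perm.sign σ • ∏ i, Mᵀ (σ i) i| = ∏ i, |M i (σ i)| := by
    intro σ
    rw [Units.smul_def, smul_eq_mul, abs_mul, Finset.abs_prod]
    have h2 : |((Equiv.Perm.sign σ : ℤˣ) : ℤ)| = 1 := by
      rcases Int.units_eq_one_or (Equiv.Perm.sign σ) with h | h <;> rw [h] <;> simp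
    rw [h2, one_mul]
    rfl
  rw [Finset.sum_congr rfl fun σ _ => h1 σ, Finset.prod_univ_sum]
  have hinj : Function.Injective (fun σ : Equiv.Perm n => (σ : n → n)) :=
    fun σ τ h => Equiv.coe_fn_injective h
  rw [← Finset.sum_image (s := Finset.univ) (g := fun σ : Equiv.Perm n => (σ : n → n))
    (f := fun φ : n → n => ∏ i, |M i (φ i)|) (fun a _ b _ h => hinj h)]
  refine Finset.sum_le_sum_of_subset_of_nonneg ?_ ?_
  · intro φ _
    simp
  · intro φ _ _
    exact Finset.prod_nonneg fun i _ => abs_nonneg _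

/-- minors of size `k` with rows of norm at most `r` -/
theorem abs_minor_le {γ ι : Type*} [Fintype ι] (A : γ → ι → ℤ) (r : ℕ)
    (hA : ∀ g, ∑ i, |A g i| ≤ (r : ℤ)) {k : ℕ} (e : Fin k → γ) (c : Fin k → ι)
    (hc : Function.Injective c) :
    |(Matrix.of fun i j => A (e i) (c j)).det| ≤ (r : ℤ) ^ k := by
  classical
  refine (abs_det_le _).trans ?_
  have h1 : ∀ i : Fin k, ∑ j, |(Matrix.of fun i j => A (e i) (c j)) i j| ≤ (r : ℤ) := by
    intro i
    refine le_trans ?_ (hA (e i))
    simp only [Matrix.of_apply]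
    rw [← Finset.sum_image (s := Finset.univ) (g := c) (f := fun t => |A (e i) t|)
      (fun a _ b _ h => hc h)]
    exact Finset.sum_le_sum_of_subset_of_nonneg (Finset.subset_univ _)
      fun _ _ _ => abs_nonneg _
  calc _ ≤ ∏ _i : Fin k, (r : ℤ) :=
        Finset.prod_le_prod (fun i _ => Finset.sum_nonneg fun j _ => abs_nonneg _) fun i _ => h1 i
    _ = (r : ℤ) ^ k := by rw [Finset.prod_const, Finset.card_univ, Fintype.card_fin]

theorem exists_small_kernel {γ ι : Type*} [Fintype ι] (A : γ → ι → ℤ) (r l : ℕ) (hr : 1 ≤ r)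
    [hl : Fact l.Prime] (hA : ∀ g, ∑ i, |A g i| ≤ (r : ℤ)) (hrl : r ^ Fintype.card ι < l)
    (v : ι → ZMod l) (hv : ∃ i, v i ≠ 0) (hker : ∀ g, ∑ i, v i * (A g i : ZMod l) = 0) :
    ∃ b : ι → ℤ, (∃ i, b i ≠ 0) ∧ (∀ i, |b i| ≤ (r : ℤ) ^ (Fintype.card ι - 1)) ∧
      ∀ g, ∑ i, b i * A g i = 0 := by
  classical
  let D : ℕ → Prop := fun k => ∃ (e : Fin k → γ) (c : Fin k → ι),
    (Matrix.of fun i j => A (e i) (c j)).det ≠ 0
  have D0 : D 0 := ⟨Fin.elim0, Fin.elim0, by rw [Matrix.det_isEmpty]; exact one_ne_zero⟩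
  have hinjD : ∀ {k : ℕ} (e : Fin k → γ) (c : Fin k → ι),
      (Matrix.of fun i j => A (e i) (c j)).det ≠ 0 → Function.Injective c := by
    intro k e c h i j hij
    by_contra hne
    exact h (Matrix.det_zero_of_column_eq hne fun s => by
      rw [Matrix.of_apply, Matrix.of_apply, hij])
  -- the largest minors vanish
  have Dn : ¬ D (Fintype.card ι) := by
    rintro ⟨e, c, h⟩
    have hci := hinjD e c h
    have hcb : Function.Bijective c := (Fintype.bijective_iff_injective_and_card c).2
      ⟨hci, by rw [Fintype.card_fin]⟩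
    have h1 : ((Matrix.of fun i j => A (e i) (c j)).det : ZMod l) = 0 := by
      have h2 : ((Matrix.of fun i j => A (e i) (c j)).map (Int.castRingHom (ZMod l))) *ᵥ
          (fun j => v (c j)) = 0 := by
        funext i
        rw [Matrix.mulVec, dotProduct]
        have h3 := hker (e i)
        rw [← Function.Bijective.sum_comp hcb] at h3
        rw [Pi.zero_apply, ← h3]
        refine Finset.sum_congr rfl fun j _ => ?_
        simp [Matrix.map_apply, mul_comm]
      have h4 : (fun j => v (c j)) ≠ 0 := by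
        obtain ⟨i, hi⟩ := hv
        obtain ⟨j, rfl⟩ := hcb.2 i
        intro h5
        exact hi (congrFun h5 j)
      have h5 := (Matrix.exists_mulVec_eq_zero_iff).1 ⟨_, h4, h2⟩
      have h6 := (Int.castRingHom (ZMod l)).map_det (Matrix.of fun i j => A (e i) (c j))
      rw [RingHom.mapMatrix_apply, h5] at h6
      simpa using h6
    have h2 : (l : ℤ) ∣ (Matrix.of fun i j => A (e i) (c j)).det :=
      (ZMod.intCast_zmod_eq_zero_iff_dvd _ _).1 h1
    have h3 := abs_minor_le A r hA e c hci
    have h4 : |(Matrix.of fun i j => A (e i) (c j)).det| < (l : ℤ) :=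
      h3.trans_lt (by exact_mod_cast hrl)
    exact h (Int.eq_zero_of_abs_lt_dvd h2 h4)
  -- the largest size of a nonzero minor
  obtain ⟨k, hkn, hk, hk1⟩ : ∃ k, k < Fintype.card ι ∧ D k ∧ ¬ D (k + 1) := by
    by_contra hcon
    push Not at hcon
    have : ∀ k, k ≤ Fintype.card ι → D k := by
      intro k
      induction k with
      | zero => exact fun _ => D0
      | succ k ih => exact fun h => hcon k (by omega) (ih (by omega))
    exact Dn (this _ le_rfl)
  obtain ⟨e, c, hdet⟩ := hk
  have hci := hinjD e c hdet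
  obtain ⟨j, hj⟩ : ∃ j, j ∉ Set.range c := by
    by_contra hcon
    push Not at hcon
    have h1 : Function.Surjective c := fun j => hcon j
    have h2 := Fintype.card_le_of_surjective c h1
    rw [Fintype.card_fin] at h2
    omega
  let c' : Fin (k + 1) → ι := Fin.cons j c
  have hc' : Function.Injective c' := Fin.cons_injective_iff.2 ⟨hj, hci⟩
  let C : Fin (k + 1) → ℤ := fun t =>
    (-1) ^ (t : ℕ) * (Matrix.of fun i s => A (e i) (c' (t.succAbove s))).det
  have hexp : ∀ g, ∑ t, C t * A g (c' t) = 0 := by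
    intro g
    have h1 : (Matrix.of fun i s => A ((Fin.cons g e : Fin (k + 1) → γ) i) (c' s)).det = 0 := by
      by_contra h2
      exact hk1 ⟨_, _, h2⟩
    rw [Matrix.det_succ_row_zero] at h1
    rw [← h1]
    refine Finset.sum_congr rfl fun t _ => ?_
    simp only [C, Matrix.of_apply, Fin.cons_zero]
    have h2 : (Matrix.of fun i s => A ((Fin.cons g e : Fin (k + 1) → γ) i) (c' s)).submatrix
        Fin.succ t.succAbove = Matrix.of fun i s => A (e i) (c' (t.succAbove s)) := by
      ext i s
      rw [Matrix.submatrix_apply, Matrix.of_apply, Matrix.of_apply, Fin.cons_succ]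
    rw [h2]
    ring
  have hCbd : ∀ t, |C t| ≤ (r : ℤ) ^ (Fintype.card ι - 1) := by
    intro t
    simp only [C]
    rw [abs_mul, abs_pow, abs_neg, abs_one, one_pow, one_mul]
    refine (abs_minor_le A r hA e (fun s => c' (t.succAbove s))
      (hc'.comp Fin.succAbove_right_injective)).trans ?_
    exact pow_le_pow_right₀ (by exact_mod_cast hr) (by omega)
  have hC0 : C 0 ≠ 0 := by
    simp only [C, Fin.val_zero, pow_zero, one_mul]
    have h2 : (Matrix.of fun i s => A (e i) (c' ((0 : Fin (k + 1)).succAbove s))) =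
        Matrix.of fun i j => A (e i) (c j) := by
      ext i s
      rw [Matrix.of_apply, Matrix.of_apply, Fin.zero_succAbove]
      simp only [c', Fin.cons_succ]
    rw [h2]
    exact hdet
  -- the kernel vector
  let b : ι → ℤ := fun i => if h : ∃ t, c' t = i then C h.choose else 0
  have hb : ∀ t, b (c' t) = C t := by
    intro t
    have h : ∃ s, c' s = c' t := ⟨t, rfl⟩
    simp only [b]
    rw [dif_pos h, hc' h.choose_spec]
  refine ⟨b, ⟨c' 0, by rw [hb]; exact hC0⟩, ?_, ?_⟩
  · intro i
    by_cases h : ∃ t, c' t = i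
    · obtain ⟨t, rfl⟩ := h
      rw [hb]
      exact hCbd t
    · simp only [b]
      rw [dif_neg h, abs_zero]
      positivity
  · intro g
    rw [← hexp g]
    have h1 : ∑ t, C t * A g (c' t) = ∑ t, (fun i => b i * A g i) (c' t) :=
      Finset.sum_congr rfl fun t _ => by simp only [hb]
    rw [h1, ← Finset.sum_image (s := Finset.univ) (g := c') (f := fun i => b i * A g i)
      (fun a _ b _ h => hc' h)]
    symm
    refine Finset.sum_subset (Finset.subset_univ _) fun i _ hi => ?_
    have h : ¬ ∃ t, c' t = i := by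
      rintro ⟨t, rfl⟩
      exact hi (Finset.mem_image_of_mem _ (Finset.mem_univ t))
    simp only [b]
    rw [dif_neg h, zero_mul]

end Pool.Agent.D0H66.MK
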