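import Mathlib
import Pool.Agent.H925R2.Core
import Pool.Agent.D0H66.MK.Minor

/-!
# Relations which are invariant under a subgroup of prime power order

`R` is a finite set with a fixed point free involution `inv`, `G` is a group acting on `R` and
commuting with `inv`, `u` an antisymmetric integral function.  The relations are the antisymmetric
integral functions `c` orthogonal to all translates of `u`.  If there is a nonzero relation, and `P`
is a subgroup of order a power of an odd prime `ℓ`, then there is a nonzero relation modulo `ℓ` which is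
constant on the orbits of `P`; if `ℓ` is larger than a power of the norm of `u`, it gives rise to
a small integral relation which is constant on the orbits of `P`.
-/

set_option autoImplicit false
set_option linter.unusedSectionVars false

namespace Pool.Agent.D0H66.MK

open MulAction Finset Pool.Agent.H925R2

section

variable {R : Type*} [Fintype R] {G : Type*} [Group G] [MulAction G R]

/-- An antisymmetric function orthogonal to all translates of `u`. -/
def Rel (G : Type*) [Group G] {R : Type*} [Fintype R] [MulAction G R] (inv : R → R)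
    (u c : R → ℤ) : Prop :=
  (∀ x, c (inv x) = -c x) ∧ ∀ g : G, ∑ x, c x * u (g • x) = 0

variable {inv : R → R} {u : R → ℤ}

theorem Rel.add {c c' : R → ℤ} (h : Rel G inv u c) (h' : Rel G inv u c') :
    Rel G inv u (c + c') := by
  refine ⟨fun x => ?_, fun g => ?_⟩
  · rw [Pi.add_apply, Pi.add_apply, h.1, h'.1]
    ring
  · simp only [Pi.add_apply, add_mul, Finset.sum_add_distrib, h.2, h'.2, add_zero]

theorem Rel.neg {c : R → ℤ} (h : Rel G inv u c) : Rel G inv u (-c) := by
  refine ⟨fun x => ?_, fun g => ?_⟩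
  · rw [Pi.neg_apply, Pi.neg_apply, h.1]
  · simp only [Pi.neg_apply, neg_mul, Finset.sum_neg_distrib, h.2, neg_zero]

theorem Rel.zero : Rel G inv u 0 :=
  ⟨fun x => by simp, fun g => by simp⟩

theorem Rel.smul (hG : ∀ (g : G) (x : R), g • inv x = inv (g • x)) {c : R → ℤ}
    (h : Rel G inv u c) (σ : G) : Rel G inv u (fun x => c (σ • x)) := by
  refine ⟨fun x => ?_, fun g => ?_⟩
  · change c (σ • inv x) = -c (σ • x)
    rw [hG, h.1]
  · rw [← h.2 (g * σ⁻¹)]
    refine Fintype.sum_equiv (MulAction.toPerm σ) _ _ fun x => ?_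
    rw [MulAction.toPerm_apply, mul_smul, inv_smul_smul]

/-- A nonzero relation can be divided so that it is not divisible by `l`. -/
theorem Rel.exists_not_dvd {c : R → ℤ} (h : Rel G inv u c) (l : ℕ) [Fact l.Prime]
    (hc : ∃ x, c x ≠ 0) : ∃ c' : R → ℤ, Rel G inv u c' ∧ ∃ x, ¬ (l : ℤ) ∣ c' x := by
  classical
  obtain ⟨x₀, hx₀⟩ := hc
  obtain ⟨c', hc1, hc2⟩ := Finset.extract_gcd (s := (Finset.univ : Finset R)) c
    ⟨x₀, Finset.mem_univ _⟩
  set d := Finset.univ.gcd c with hd
  have hd0 : d ≠ 0 := by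
    intro h
    apply hx₀
    rw [hc1 x₀ (Finset.mem_univ _), h, zero_mul]
  refine ⟨c', ⟨fun x => ?_, fun g => ?_⟩, ?_⟩
  · have := h.1 x
    rw [hc1 x (Finset.mem_univ _), hc1 (inv x) (Finset.mem_univ _)] at this
    apply mul_left_cancel₀ hd0
    rw [this]; ring
  · apply mul_left_cancel₀ hd0
    rw [mul_zero, ← h.2 g, Finset.mul_sum]
    refine Finset.sum_congr rfl fun x _ => ?_
    rw [hc1 x (Finset.mem_univ _)]
    ring
  · by_contra hcon
    push Not at hcon
    have h1 : (l : ℤ) ∣ Finset.univ.gcd c' := Finset.dvd_gcd fun x _ => hcon x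
    rw [hc2] at h1
    have h2 := Int.natAbs_dvd_natAbs.2 h1
    simp only [Int.natAbs_natCast, Int.natAbs_one, Nat.dvd_one] at h2
    exact (Fact.out : l.Prime).one_lt.ne' h2

/-- The reductions of the relations. -/
def Red (G : Type*) [Group G] {R : Type*} [Fintype R] [MulAction G R] (inv : R → R)
    (u : R → ℤ) (l : ℕ) : AddSubgroup (R → ZMod l) where
  carrier := {v | ∃ c, Rel G inv u c ∧ ∀ x, v x = (c x : ZMod l)}
  add_mem' := by
    rintro v v' ⟨c, h, hc⟩ ⟨c', h', hc'⟩
    exact ⟨c + c', h.add h', fun x => by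
      rw [Pi.add_apply, Pi.add_apply, hc, hc', Int.cast_add]⟩
  zero_mem' := ⟨0, Rel.zero, fun x => by simp⟩
  neg_mem' := by
    rintro v ⟨c, h, hc⟩
    exact ⟨-c, h.neg, fun x => by
      rw [Pi.neg_apply, Pi.neg_apply, hc, Int.cast_neg]⟩

/-- Existence of a nonzero relation modulo `l` fixed by a subgroup of `l`-power order. -/
theorem exists_fixed (hG : ∀ (g : G) (x : R), g • inv x = inv (g • x)) (l : ℕ) [Fact l.Prime]
    (P : Subgroup G) (hP : IsPGroup l P) {c : R → ℤ} (h : Rel G inv u c) (hc : ∃ x, c x ≠ 0) :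
    ∃ v : R → ZMod l, (∃ x, v x ≠ 0) ∧ (∀ σ ∈ P, ∀ x, v (σ • x) = v x) ∧
      (∀ x, v (inv x) = -v x) ∧ ∀ g : G, ∑ x, v x * (u (g • x) : ZMod l) = 0 := by
  classical
  obtain ⟨c', h', x₁, hx₁⟩ := h.exists_not_dvd l hc
  let W := Red G inv u l
  let w₁ : W := ⟨fun x => (c' x : ZMod l), c', h', fun x => rfl⟩
  have hw₁ : w₁ ≠ 0 := by
    intro h0
    have h1 := congrFun (congrArg Subtype.val h0) x₁
    exact hx₁ ((ZMod.intCast_zmod_eq_zero_iff_dvd _ _).1 h1)
  have hfin : Finite (R → ZMod l) := inferInstance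
  have hdvd : l ∣ Nat.card W := by
    have h1 : Nat.card W ∣ Nat.card (R → ZMod l) := AddSubgroup.card_addSubgroup_dvd_card W
    have h2 : Nat.card (R → ZMod l) = l ^ Fintype.card R := by
      rw [Nat.card_eq_fintype_card, Fintype.card_fun, ZMod.card]
    rw [h2] at h1
    obtain ⟨j, -, hj⟩ := (Nat.dvd_prime_pow Fact.out).1 h1
    rcases Nat.eq_zero_or_pos j with h0 | h0
    · exfalso
      rw [h0, pow_zero, Nat.card_eq_one_iff_unique] at hj
      exact hw₁ (@Subsingleton.elim _ hj.1 _ _)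
    · rw [hj]
      exact dvd_pow_self l h0.ne'
  let act : MulAction P W :=
    { smul := fun σ w => ⟨fun x => w.1 ((σ : G)⁻¹ • x), by
        obtain ⟨c, hc, hw⟩ := w.2
        exact ⟨fun x => c ((σ : G)⁻¹ • x), hc.smul hG _, fun x => hw _⟩⟩
      one_smul := by
        intro w
        apply Subtype.ext
        funext x
        change w.1 (((1 : P) : G)⁻¹ • x) = w.1 x
        rw [OneMemClass.coe_one, inv_one, one_smul]
      mul_smul := by
        intro σ τ w
        apply Subtype.ext
        funext x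
        change w.1 (((σ * τ : P) : G)⁻¹ • x) = w.1 ((τ : G)⁻¹ • (σ : G)⁻¹ • x)
        rw [Subgroup.coe_mul, mul_inv_rev, mul_smul] }
  have h0 : (0 : W) ∈ fixedPoints P W := by
    intro σ
    apply Subtype.ext
    funext x
    rfl
  obtain ⟨w, hw, hne⟩ := hP.exists_fixed_point_of_prime_dvd_card_of_fixed_point W hdvd h0
  obtain ⟨c, hc, hwc⟩ := w.2
  refine ⟨w.1, ?_, ?_, ?_, ?_⟩
  · by_contra hcon
    push Not at hcon
    apply hne
    apply Subtype.ext
    funext x
    exact (hcon x).symm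
  · intro σ hσ x
    have h1 := hw ⟨σ, hσ⟩
    have h2 := congrFun (congrArg Subtype.val h1) (σ • x)
    change w.1 (σ⁻¹ • σ • x) = w.1 (σ • x) at h2
    rw [inv_smul_smul] at h2
    exact h2.symm
  · intro x
    rw [hwc, hwc, hc.1]
    push_cast
    rfl
  · intro g
    have h1 := congrArg (Int.cast : ℤ → ZMod l) (hc.2 g)
    push_cast at h1
    rw [← h1]
    exact Finset.sum_congr rfl fun x _ => by rw [hwc]

/-- The involution on the orbits. -/
def oinv (hG : ∀ (g : G) (x : R), g • inv x = inv (g • x)) (P : Subgroup G) :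
    orbitRel.Quotient P R → orbitRel.Quotient P R :=
  Quotient.map inv (by
    rintro x y ⟨σ, rfl⟩
    exact ⟨σ, hG σ y⟩)

theorem oinv_mk (hG : ∀ (g : G) (x : R), g • inv x = inv (g • x)) (P : Subgroup G) (x : R) :
    oinv hG P (Quotient.mk _ x) = Quotient.mk _ (inv x) := rfl

theorem oinv_ne (hinv : ∀ x, inv (inv x) = x) (hne : ∀ x, inv x ≠ x)
    (hG : ∀ (g : G) (x : R), g • inv x = inv (g • x)) (l : ℕ) (hl : Odd l)
    (P : Subgroup G) (hP : IsPGroup l P) (q : orbitRel.Quotient P R) : oinv hG P q ≠ q := by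
  obtain ⟨x, rfl⟩ := Quotient.exists_rep q
  rw [oinv_mk]
  intro h
  obtain ⟨σ, hσ⟩ : inv x ∈ orbit P x := Quotient.exact h
  obtain ⟨k, hk⟩ := hP σ
  have h1 : (σ : G) • x = inv x := hσ
  have h2 : ((σ : G) ^ 2) • x = x := by
    rw [sq, mul_smul, h1, hG, h1, hinv]
  have h3 : ∀ t : ℕ, (((σ : G) ^ 2) ^ t) • x = x := by
    intro t
    induction t with
    | zero => rw [pow_zero, one_smul]
    | succ t ih => rw [pow_succ, mul_smul, h2, ih]
  obtain ⟨t, ht⟩ := (hl.pow (n := k))
  have h4 : ((σ : G) ^ (l ^ k)) • x = inv x := by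
    rw [ht, pow_succ, pow_mul, mul_smul, h1, hG, h3]
  have h5 : (σ : G) ^ (l ^ k) = 1 := by
    have := congrArg Subtype.val hk
    simpa using this
  rw [h5, one_smul] at h4
  exact hne x h4.symm

/-- **Combinatorial theorem.**  If there is a nonzero relation then there is a nonzero one which is
constant on the orbits of `P` and has values of absolute value at most `r ^ (m - 1)`. -/
theorem exists_inv (hinv : ∀ x, inv (inv x) = x) (hne : ∀ x, inv x ≠ x)
    (hG : ∀ (g : G) (x : R), g • inv x = inv (g • x)) (l : ℕ) [Fact l.Prime] (hl : Odd l)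
    (P : Subgroup G) (hP : IsPGroup l P) (m r : ℕ)
    (hm : Nat.card (orbitRel.Quotient P R) ≤ 2 * m) (hr : 1 ≤ r)
    (hu : ∀ x, u (inv x) = -u x) (hur : ∑ x, |u x| ≤ 2 * (r : ℤ)) (hrl : r ^ m < l)
    {c : R → ℤ} (h : Rel G inv u c) (hc : ∃ x, c x ≠ 0) :
    ∃ b : R → ℤ, Rel G inv u b ∧ (∃ x, b x ≠ 0) ∧ (∀ σ ∈ P, ∀ x, b (σ • x) = b x) ∧
      ∀ x, |b x| ≤ (r : ℤ) ^ (m - 1) := by
  classical
  obtain ⟨v, hv0, hvP, hva, hvr⟩ := exists_fixed hG l P hP h hc
  let Q := orbitRel.Quotient P R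
  have _ : Fintype Q := Fintype.ofFinite Q
  let mk : R → Q := Quotient.mk _
  have hoo : ∀ q : Q, oinv hG P (oinv hG P q) = q := by
    intro q
    obtain ⟨x, rfl⟩ := Quotient.exists_rep q
    rw [oinv_mk, oinv_mk, hinv]
  have hon : ∀ q : Q, oinv hG P q ≠ q := oinv_ne hinv hne hG l hl P hP
  obtain ⟨H, hH⟩ := exists_isHalf hoo hon
  have hcard : Fintype.card Q = 2 * H.card := hH.card hoo
  have hHm : H.card ≤ m := by
    have h1 : Nat.card Q = 2 * H.card := by rw [Nat.card_eq_fintype_card, hcard]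
    have h2 : Nat.card Q ≤ 2 * m := hm
    omega
  -- the matrix
  let A : G → Q → ℤ := fun g q => ∑ x with mk x = q, u (g • x)
  have hAo : ∀ g q, A g (oinv hG P q) = -A g q := by
    intro g q
    simp only [A]
    rw [← Finset.sum_neg_distrib]
    refine Finset.sum_nbij' inv inv ?_ ?_ (fun x _ => hinv x) (fun x _ => hinv x) ?_
    · intro x hx
      rw [Finset.mem_filter] at hx ⊢
      refine ⟨Finset.mem_univ _, ?_⟩
      change oinv hG P (mk x) = q
      rw [hx.2, hoo]
    · intro x hx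
      rw [Finset.mem_filter] at hx ⊢
      refine ⟨Finset.mem_univ _, ?_⟩
      change oinv hG P (mk x) = _
      rw [hx.2]
    · intro x _
      rw [hG, hu, neg_neg]
  have hAsum : ∀ g, ∑ i : H, |A g i| ≤ (r : ℤ) := by
    intro g
    have h1 := hH.sum_symm hoo (fun q => |A g q|) (fun q => by rw [hAo, abs_neg])
    have h2 : ∑ q, |A g q| ≤ ∑ x, |u x| := by
      calc ∑ q, |A g q| ≤ ∑ q : Q, ∑ x with mk x = q, |u (g • x)| :=
            Finset.sum_le_sum fun q _ => Finset.abs_sum_le_sum_abs _ _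
        _ = ∑ x, |u (g • x)| := Finset.sum_fiberwise _ _ _
        _ = ∑ x, |u x| := Fintype.sum_equiv (MulAction.toPerm g) _ _ fun x => rfl
    have h3 : ∑ i : H, |A g i| = ∑ q ∈ H, |A g q| := Finset.sum_coe_sort H fun q => |A g q|
    rw [h3]
    linarith
  have hcardH : Fintype.card H = H.card := Fintype.card_coe H
  have hpos : 0 < H.card := by
    obtain ⟨x, -⟩ := hc
    have h1 : 0 < Fintype.card Q := Fintype.card_pos_iff.2 ⟨mk x⟩
    omega
  -- the kernel vector modulo `l`
  let w : Q → ZMod l := Quotient.lift v (by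
    rintro x y ⟨σ, rfl⟩
    exact hvP σ σ.2 y)
  have hwmk : ∀ x, w (mk x) = v x := fun x => rfl
  have hwo : ∀ q, w (oinv hG P q) = -w q := by
    intro q
    obtain ⟨x, rfl⟩ := Quotient.exists_rep q
    exact hva x
  have hfib : ∀ {M : Type} [CommRing M] (w : Q → M) (g : G),
      ∑ x, w (mk x) * ((u (g • x) : ℤ) : M) = ∑ q, w q * ((A g q : ℤ) : M) := by
    intro M _ w g
    rw [← Finset.sum_fiberwise (g := mk)]
    refine Finset.sum_congr rfl fun q _ => ?_
    simp only [A]
    rw [Int.cast_sum, Finset.mul_sum]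
    refine Finset.sum_congr rfl fun x hx => ?_
    rw [(Finset.mem_filter.1 hx).2]
  have hhalf : ∀ {M : Type} [CommRing M] (w : Q → M), (∀ q, w (oinv hG P q) = -w q) → ∀ g : G,
      ∑ q, w q * ((A g q : ℤ) : M) = 2 * ∑ i : H, w i * ((A g i : ℤ) : M) := by
    intro M _ w hw g
    have h1 := hH.sum_symm hoo (fun q => w q * ((A g q : ℤ) : M)) (fun q => by
      rw [hw, hAo]
      push_cast
      ring)
    have h3 : ∑ i : H, w i * ((A g i : ℤ) : M) = ∑ q ∈ H, w q * ((A g q : ℤ) : M) :=
      Finset.sum_coe_sort H fun q => w q * ((A g q : ℤ) : M)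
    rw [h1, h3]
    ring
  have h2l : (2 : ZMod l) ≠ 0 := by
    intro h2
    have h3 : ((2 : ℕ) : ZMod l) = 0 := by exact_mod_cast h2
    rw [ZMod.natCast_eq_zero_iff] at h3
    have h4 := (Nat.prime_dvd_prime_iff_eq Fact.out Nat.prime_two).1 h3
    rw [h4] at hl
    exact absurd hl (by decide)
  obtain ⟨b, hb0, hbr, hbk⟩ := exists_small_kernel (fun g (i : H) => A g i) r l hr hAsum
    (by rw [hcardH]; exact (Nat.pow_le_pow_right hr hHm).trans_lt hrl) (fun i => w i)
    (by
      obtain ⟨x, hx⟩ := hv0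
      by_cases h1 : mk x ∈ H
      · exact ⟨⟨mk x, h1⟩, hx⟩
      · rw [hH, not_not] at h1
        refine ⟨⟨_, h1⟩, ?_⟩
        rw [hwo, neg_ne_zero]
        exact hx)
    (by
      intro g
      have h1 := hvr g
      have h2 : ∑ x, v x * ((u (g • x) : ℤ) : ZMod l) = ∑ x, w (mk x) * ((u (g • x) : ℤ) : ZMod l) :=
        rfl
      rw [h2, hfib w g, hhalf w hwo g] at h1
      exact (mul_eq_zero.1 h1).resolve_left h2l)
  -- extension
  let B : Q → ℤ := fun q => if hq : q ∈ H then b ⟨q, hq⟩ else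
    if hq' : oinv hG P q ∈ H then -b ⟨_, hq'⟩ else 0
  have hBH : ∀ i : H, B i = b i := by
    intro i
    simp only [B]
    rw [dif_pos i.2]
  have hBo : ∀ q, B (oinv hG P q) = -B q := by
    intro q
    by_cases hq : q ∈ H
    · have h1 : oinv hG P q ∉ H := (hH q).1 hq
      have h2 : oinv hG P (oinv hG P q) ∈ H := by rw [hoo]; exact hq
      simp only [B]
      rw [dif_neg h1, dif_pos h2, dif_pos hq]
      congr 2
      exact Subtype.ext (hoo q)
    · have h1 : oinv hG P q ∈ H := by
        rw [hH q, not_not] at hq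
        exact hq
      simp only [B]
      rw [dif_pos h1, dif_neg hq, dif_pos h1, neg_neg]
  refine ⟨fun x => B (mk x), ⟨fun x => ?_, fun g => ?_⟩, ?_, ?_, ?_⟩
  · exact hBo (mk x)
  · have h1 := hfib B g
    have h2 := hhalf B hBo g
    simp only [Int.cast_id] at h1 h2
    rw [h1, h2]
    have h3 : ∑ i : H, B i * A g i = 0 := by
      rw [← hbk g]
      exact Finset.sum_congr rfl fun i _ => by rw [hBH]
    rw [h3, mul_zero]
  · obtain ⟨i, hi⟩ := hb0
    obtain ⟨x, hx⟩ := Quotient.exists_rep i.1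
    refine ⟨x, ?_⟩
    change B (mk x) ≠ 0
    rw [show mk x = i.1 from hx, hBH]
    exact hi
  · intro σ hσ x
    have h1 : mk (σ • x) = mk x := Quotient.sound ⟨⟨σ, hσ⟩, rfl⟩
    change B (mk (σ • x)) = B (mk x)
    rw [h1]
  · intro x
    have hle : (r : ℤ) ^ (Fintype.card H - 1) ≤ (r : ℤ) ^ (m - 1) :=
      pow_le_pow_right₀ (by exact_mod_cast hr) (by omega)
    change |B (mk x)| ≤ _
    by_cases hq : mk x ∈ H
    · have := hBH ⟨mk x, hq⟩
      rw [this]
      exact (hbr _).trans hle
    · have h1 : oinv hG P (mk x) ∈ H := by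
        rw [hH (mk x), not_not] at hq
        exact hq
      have h2 := hBH ⟨_, h1⟩
      have h3 : |B (mk x)| = |B (oinv hG P (mk x))| := by rw [hBo, abs_neg]
      rw [h3, h2]
      exact (hbr _).trans hle

end

end Pool.Agent.D0H66.MK
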