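import Mathlib
import Pool.Agent.H925R2.AV
import Pool.Agent.H485R3.Kron
import Pool.Agent.D0H66.MK.Comb
import Pool.Agent.D0H66.BP.Arith

/-!
# Relations between the roots of a separable Weil polynomial and their slopes
-/

set_option autoImplicit false
set_option linter.unusedSectionVars false

namespace Pool.Agent.D0H66.MK

open Polynomial Pool.Agent.H925R2

theorem nrm0 (E : Type*) [Field E] [CharZero E] (inst : Algebra ℚ E) (h : @Normal ℚ E _ _ inst) :
    @Normal ℚ E _ _ DivisionRing.toRatAlgebra := by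
  have h0 : inst = DivisionRing.toRatAlgebra := Subsingleton.elim _ _
  subst h0
  exact h

theorem nrm1 {F : Type*} [Field F] (f : F[X]) : Normal F f.SplittingField :=
  Normal.of_isSplittingField f

theorem nrm (f : ℚ[X]) : Normal ℚ f.SplittingField := nrm0 _ _ (nrm1 f)

theorem fin0 (E : Type*) [Field E] [CharZero E] (inst : Algebra ℚ E)
    (h : @FiniteDimensional ℚ E _ _ (@Algebra.toModule _ _ _ _ inst)) :
    @FiniteDimensional ℚ E _ _ (@Algebra.toModule _ _ _ _ DivisionRing.toRatAlgebra) := by
  have h0 : inst = DivisionRing.toRatAlgebra := Subsingleton.elim _ _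
  subst h0
  exact h

/-- Two embeddings of the splitting field differ by an automorphism. -/
theorem ex_gal {f : ℚ[X]} {K : Type*} [Field K] [Algebra ℚ K] (e φ : f.SplittingField →ₐ[ℚ] K) :
    ∃ g : f.Gal, ∀ x, φ x = e (g x) := by
  have _ : Normal ℚ f.SplittingField := nrm f
  let _ : Algebra f.SplittingField K := e.toRingHom.toAlgebra
  have _ : IsScalarTower ℚ f.SplittingField K := IsScalarTower.of_algebraMap_eq fun x =>
    (e.commutes x).symm
  let g := φ.restrictNormal' f.SplittingField
  let g' : f.Gal := AlgEquiv.ofRingEquiv (f := g.toRingEquiv) (fun r => by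
    rw [eq_ratCast, map_ratCast])
  refine ⟨g', fun x => ?_⟩
  have h := AlgHom.restrictNormal_commutes φ f.SplittingField x
  exact h.symm

section

variable {f : ℚ[X]} (hf : f.Separable) {q : ℚ} (hq : 0 < q)
  (hweil : ∀ z : ℂ, aeval z f = 0 → ‖z‖ ^ 2 = (q : ℝ))

/-- The involution `x ↦ q / x` on the roots. -/
noncomputable def si : f.rootSet f.SplittingField → f.rootSet f.SplittingField :=
  fun x => ⟨(q : f.SplittingField) / x.1, by
    rw [mem_rootSet]
    exact ⟨hf.ne_zero, root_inv hq hweil x.1 ((mem_rootSet.1 x.2).2)⟩⟩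

theorem si_coe (x : f.rootSet f.SplittingField) :
    ((si hf hq hweil x : f.rootSet f.SplittingField) : f.SplittingField) =
      (q : f.SplittingField) / x.1 := rfl

include hf hq hweil in
theorem rne (x : f.rootSet f.SplittingField) : x.1 ≠ 0 :=
  root_ne_zero hq hweil x.1 ((mem_rootSet.1 x.2).2)

theorem si_si (x : f.rootSet f.SplittingField) :
    si hf hq hweil (si hf hq hweil x) = x := by
  apply Subtype.ext
  rw [si_coe, si_coe]
  have hx0 := rne hf hq hweil x
  have hq0 : (q : f.SplittingField) ≠ 0 := by exact_mod_cast hq.ne'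
  field_simp

theorem sm_coe (g : f.Gal) (x : f.rootSet f.SplittingField) :
    ((g • x : f.rootSet f.SplittingField) : f.SplittingField) = g x.1 := rfl

theorem sm_si (g : f.Gal) (x : f.rootSet f.SplittingField) :
    g • si hf hq hweil x = si hf hq hweil (g • x) := by
  apply Subtype.ext
  rw [sm_coe, si_coe, si_coe, sm_coe, map_div₀, map_ratCast]

include hf in
/-- every root comes from the splitting field -/
theorem ex_root {Ω : Type*} [Field Ω] [Algebra ℚ Ω] (j : f.SplittingField →ₐ[ℚ] Ω) (y : Ω)
    (hy : aeval y f = 0) : ∃ x : f.rootSet f.SplittingField, j x.1 = y := by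
  classical
  have h1 : y ∈ f.rootSet Ω := mem_rootSet.2 ⟨hf.ne_zero, hy⟩
  have h2 := (SplittingField.splits f).image_rootSet j
  rw [← h2] at h1
  obtain ⟨x, hx, hxy⟩ := h1
  exact ⟨⟨x, hx⟩, hxy⟩

theorem root_map {Ω : Type*} [Field Ω] [Algebra ℚ Ω] (j : f.SplittingField →ₐ[ℚ] Ω)
    (x : f.rootSet f.SplittingField) : aeval (j x.1) f = 0 := by
  rw [aeval_algHom_apply, (mem_rootSet.1 x.2).2, map_zero]

variable {Ω : Type*} [Field Ω] [CharZero Ω] [DecidableEq Ω] (j : f.SplittingField →ₐ[ℚ] Ω)

/-- multiplicities in a list -/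
noncomputable def ct (L : List Ω) (x : f.rootSet f.SplittingField) : ℕ := L.count (j x.1)

include hf in
/-- A list of roots is determined by the counting function. -/
theorem prod_eq {M : Type*} [CommMonoid M] (L : List Ω) (hL : ∀ y ∈ L, aeval y f = 0)
    (F : Ω → M) : (L.map F).prod = ∏ x : f.rootSet f.SplittingField, F (j x.1) ^ ct j L x := by
  classical
  rw [Finset.prod_list_map_count]
  have hinj : Function.Injective (fun x : f.rootSet f.SplittingField => j x.1) :=
    fun a b h => Subtype.ext (j.injective h)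
  have h1 : L.toFinset ⊆ Finset.univ.image (fun x : f.rootSet f.SplittingField => j x.1) := by
    intro y hy
    obtain ⟨x, hx⟩ := ex_root hf j y (hL y (List.mem_toFinset.1 hy))
    exact Finset.mem_image.2 ⟨x, Finset.mem_univ _, hx⟩
  rw [Finset.prod_subset h1 (by
    intro y _ hy
    rw [List.mem_toFinset] at hy
    rw [List.count_eq_zero_of_not_mem hy, pow_zero])]
  rw [Finset.prod_image (fun a _ b _ h => hinj h)]
  rfl

include hf hq hweil in
/-- A multiplicative relation gives a relation between the deviations at every embedding. -/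
theorem sum_dev {c : f.rootSet f.SplittingField → ℤ} {s : ℕ} (hs : 0 < s)
    (hc : (∏ x : f.rootSet f.SplittingField, (x : f.SplittingField) ^ c x) ^ s = 1) (hsum : ∑ x, c x = 0)
    (p : ℕ) [Fact p.Prime] (e : f.SplittingField →ₐ[ℚ] PadicAlgCl p) (g : f.Gal) :
    ∑ x : f.rootSet f.SplittingField, (c x : ℝ) *
      dev p q (e (g • x : f.rootSet f.SplittingField).1) = 0 := by
  have hne : ∀ x : f.rootSet f.SplittingField, ‖e (g x.1)‖ ≠ 0 := by
    intro x
    rw [norm_ne_zero_iff]
    intro h
    exact rne hf hq hweil x ((map_eq_zero g).1 ((map_eq_zero e).1 h))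
  have h3 : ∏ x : f.rootSet f.SplittingField, ‖e (g x.1)‖ ^ c x = 1 := by
    have h4 := congrArg (fun t => ‖e (g t)‖) hc
    simp only [map_prod, map_pow, map_zpow₀, norm_prod, norm_pow, norm_zpow, map_one,
      norm_one] at h4
    exact (pow_eq_one_iff_of_nonneg (Finset.prod_nonneg fun x _ =>
      zpow_nonneg (norm_nonneg _) _) hs.ne').1 h4
  have h7 := congrArg Real.log h3
  rw [Real.log_prod (fun x _ => zpow_ne_zero _ (hne x)), Real.log_one] at h7
  simp only [Real.log_zpow] at h7
  simp only [dev, sm_coe]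
  have h8 : ∀ x : f.rootSet f.SplittingField, (c x : ℝ) *
      (2 * Real.log ‖e (g x.1)‖ - Real.log ‖(q : PadicAlgCl p)‖) =
      2 * ((c x : ℝ) * Real.log ‖e (g x.1)‖) -
        (c x : ℝ) * Real.log ‖(q : PadicAlgCl p)‖ := fun x => by ring
  rw [Finset.sum_congr rfl (fun x _ => h8 x), Finset.sum_sub_distrib, ← Finset.mul_sum, h7,
    ← Finset.sum_mul]
  have h9 : (∑ x : f.rootSet f.SplittingField, (c x : ℝ)) = 0 := by
    exact_mod_cast congrArg (Int.cast (R := ℝ)) hsum
  rw [h9]
  ring

theorem dev_si (p : ℕ) [Fact p.Prime] (e : f.SplittingField →ₐ[ℚ] PadicAlgCl p)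
    (x : f.rootSet f.SplittingField) :
    dev p q (e (si hf hq hweil x).1) = - dev p q (e x.1) := by
  rw [si_coe, map_div₀, map_ratCast]
  apply dev_inv p hq.ne'
  intro h
  exact rne hf hq hweil x ((map_eq_zero e).1 h)

/-- The norm of a product in terms of the deviations. -/
theorem sum_anti {c : f.rootSet f.SplittingField → ℤ}
    (hc : ∀ x, c (si hf hq hweil x) = -c x) : ∑ x, c x = 0 := by
  have h1 : ∑ x, c x = ∑ x, c (si hf hq hweil x) :=
    (Fintype.sum_bijective (si hf hq hweil) (Function.Involutive.bijective (si_si hf hq hweil))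
      _ _ fun x => rfl).symm
  have h2 : ∑ x, c (si hf hq hweil x) = -∑ x, c x := by
    rw [← Finset.sum_neg_distrib]
    exact Finset.sum_congr rfl fun x _ => hc x
  omega

/-- **Kronecker.** An antisymmetric function orthogonal to the deviations at all embeddings gives a
product which is a root of unity. -/
theorem pow_one (hint : ∀ x : f.SplittingField, aeval x f = 0 → IsIntegral ℤ x)
    (p a : ℕ) [Fact p.Prime] (hqp : q = (p : ℚ) ^ a)
    (e : f.SplittingField →ₐ[ℚ] PadicAlgCl p) {c : f.rootSet f.SplittingField → ℤ}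
    (hc : ∀ x, c (si hf hq hweil x) = -c x)
    (hrel : ∀ g : f.Gal, ∑ x : f.rootSet f.SplittingField, (c x : ℝ) *
      dev p q (e (g • x : f.rootSet f.SplittingField).1) = 0) :
    ∃ n, 0 < n ∧ (∏ x : f.rootSet f.SplittingField, (x : f.SplittingField) ^ c x) ^ n = 1 := by
  classical
  have _ : Normal ℚ f.SplittingField := nrm f
  have hsum := sum_anti hf hq hweil hc
  refine Pool.Agent.H485R3.pow_eq_one_of_norm _ ?_ ?_
  · refine Pool.Agent.H485R3.isIntegral_of_norm_le _ ?_
    intro l _ φ
    rw [map_prod, norm_prod]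
    by_cases hl : l = p
    · subst hl
      obtain ⟨g, hg⟩ : ∃ g : f.Gal, ∀ x, φ x = e (g x) := ex_gal e φ
      have hne : ∀ x : f.rootSet f.SplittingField, ‖e (g x.1)‖ ≠ 0 := by
        intro x
        rw [norm_ne_zero_iff]
        intro h
        exact rne hf hq hweil x ((map_eq_zero g).1 ((map_eq_zero e).1 h))
      have h1 := hrel g
      simp only [dev, sm_coe] at h1
      have h8 : ∀ x : f.rootSet f.SplittingField, (c x : ℝ) *
          (2 * Real.log ‖e (g x.1)‖ - Real.log ‖(q : PadicAlgCl l)‖) =
          2 * ((c x : ℝ) * Real.log ‖e (g x.1)‖) -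
            (c x : ℝ) * Real.log ‖(q : PadicAlgCl l)‖ := fun x => by ring
      have h9 : (∑ x : f.rootSet f.SplittingField, (c x : ℝ)) = 0 := by
        exact_mod_cast congrArg (Int.cast (R := ℝ)) hsum
      rw [Finset.sum_congr rfl (fun x _ => h8 x), Finset.sum_sub_distrib, ← Finset.mul_sum,
        ← Finset.sum_mul, h9, zero_mul, sub_zero] at h1
      have h2 := (mul_eq_zero.1 h1).resolve_left two_ne_zero
      have h3 : Real.log (∏ x : f.rootSet f.SplittingField, ‖e (g x.1)‖ ^ c x) = 0 := by
        rw [Real.log_prod (fun x _ => zpow_ne_zero _ (hne x))]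
        simp only [Real.log_zpow]
        exact h2
      have h4 : 0 < ∏ x : f.rootSet f.SplittingField, ‖e (g x.1)‖ ^ c x :=
        Finset.prod_pos fun x _ => zpow_pos (lt_of_le_of_ne (norm_nonneg _) (hne x).symm) _
      have h5 := Real.eq_one_of_pos_of_log_eq_zero h4 h3
      have h6 : ∏ x : f.rootSet f.SplittingField, ‖φ ((x : f.SplittingField) ^ c x)‖ =
          ∏ x : f.rootSet f.SplittingField, ‖e (g x.1)‖ ^ c x :=
        Finset.prod_congr rfl fun x _ => by rw [map_zpow₀, norm_zpow, hg]
      rw [h6, h5]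
    · refine Finset.prod_le_one (fun _ _ => norm_nonneg _) fun x _ => ?_
      rw [map_zpow₀, norm_zpow]
      have hx := (mem_rootSet.1 x.2).2
      have hy := (mem_rootSet.1 (si hf hq hweil x).2).2
      have hle : ∀ y : f.SplittingField, aeval y f = 0 → ‖φ y‖ ≤ 1 := by
        intro y hy
        obtain ⟨P, hP, hPy⟩ := hint y hy
        refine Pool.Agent.D0H66.BP.norm_le_one_of_root hP (z := φ y) ?_
        have h1 : aeval (φ y) P = (φ : f.SplittingField →+* PadicAlgCl l) (aeval y P) := by
          rw [aeval_def, aeval_def, hom_eval₂]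
          congr 1
          exact RingHom.ext_int _ _
        rw [h1, aeval_def, hPy, map_zero]
      have h1 := hle x.1 hx
      have h2 := hle _ hy
      have hqn : ‖(q : PadicAlgCl l)‖ = 1 := by
        have h3 : (q : PadicAlgCl l) = ((p ^ a : ℕ) : PadicAlgCl l) := by
          rw [hqp]
          push_cast
          rfl
        rw [h3]
        exact Pool.Agent.D0H66.BP.norm_natCast_ne hl
      rw [si_coe, map_div₀, map_ratCast, norm_div, hqn] at h2
      have hpos : 0 < ‖φ x.1‖ := by
        rw [norm_pos_iff]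
        intro h
        exact rne hf hq hweil x ((map_eq_zero φ).1 h)
      rw [div_le_one hpos] at h2
      rw [le_antisymm h1 h2, one_zpow]
  · intro φ
    have hx2 : ∀ x : f.rootSet f.SplittingField, ‖φ x.1‖ ^ 2 = (q : ℝ) := fun x =>
      hweil _ (root_map φ x)
    have h1 : ‖φ (∏ x : f.rootSet f.SplittingField, (x : f.SplittingField) ^ c x)‖ ^ 2 = 1 := by
      rw [map_prod, norm_prod, ← Finset.prod_pow]
      have h2 : ∀ x ∈ (Finset.univ : Finset (f.rootSet f.SplittingField)),
          ‖φ ((x : f.SplittingField) ^ c x)‖ ^ 2 = (q : ℝ) ^ c x := by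
        intro x _
        rw [map_zpow₀, norm_zpow, ← zpow_natCast, ← zpow_mul, mul_comm, zpow_mul, zpow_natCast,
          hx2]
      rw [Finset.prod_congr rfl h2]
      have h3 : ∏ x : f.rootSet f.SplittingField, (q : ℝ) ^ c x = (q : ℝ) ^ (∑ x, c x) := by
        have hq0 : (q : ℝ) ≠ 0 := by exact_mod_cast hq.ne'
        induction (Finset.univ : Finset (f.rootSet f.SplittingField)) using Finset.induction_on with
        | empty => simp
        | insert x s hx ih => rw [Finset.prod_insert hx, Finset.sum_insert hx, ih, zpow_add₀ hq0]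
      rw [h3, hsum, zpow_zero]
    exact (pow_eq_one_iff_of_nonneg (norm_nonneg _) two_ne_zero).1 h1

end

end Pool.Agent.D0H66.MK
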