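import Mathlib
import Pool.Agent.D0H66.MK.Bridge

/-!
# No multiplicative relations between the roots of a Weil polynomial if there are no small
invariant ones
-/

set_option autoImplicit false
set_option linter.unusedSectionVars false

namespace Pool.Agent.D0H66.MK

open Polynomial Pool.Agent.H925R2 MulAction

section

variable {f : ℚ[X]} (hf : f.Separable) {q : ℚ} (hq : 0 < q)
  (hweil : ∀ z : ℂ, aeval z f = 0 → ‖z‖ ^ 2 = (q : ℝ))

/-- the product of the powers of the roots -/
noncomputable def mon (f : ℚ[X]) (b : f.rootSet f.SplittingField → ℤ) : f.SplittingField :=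
  ∏ x : f.rootSet f.SplittingField, (x : f.SplittingField) ^ b x

theorem mon_def (b : f.rootSet f.SplittingField → ℤ) :
    mon f b = ∏ x : f.rootSet f.SplittingField, (x : f.SplittingField) ^ b x := rfl

/-- a multiplicative relation up to powers of `q` is balanced if its antisymmetrisation is -/
theorem anti_one (c : f.rootSet f.SplittingField → ℤ) (n : ℕ) (hn : 0 < n) (k : ℤ) (hq1 : q ≠ 1)
    (h : mon f c ^ n = (q : f.SplittingField) ^ k) :
    mon f (fun x => c x - c (si hf hq hweil x)) ^ n = 1 := by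
  classical
  have hq0 : (q : f.SplittingField) ≠ 0 := by exact_mod_cast hq.ne'
  have hprodq : ∀ (K : Type) [Field K] (t : K), t ≠ 0 →
      ∏ x : f.rootSet f.SplittingField, t ^ c x = t ^ (∑ x, c x) := by
    intro K _ t ht
    induction (Finset.univ : Finset (f.rootSet f.SplittingField)) using Finset.induction_on with
    | empty => simp
    | insert x s hx ih => rw [Finset.prod_insert hx, Finset.sum_insert hx, ih, zpow_add₀ ht]
  -- the absolute value
  have habs : 2 * k = n * ∑ x, c x := by
    let φ : f.SplittingField →ₐ[ℚ] ℂ := IsAlgClosed.lift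
    have h1 := congrArg (fun t => ‖φ t‖ ^ 2) h
    simp only [mon_def, map_pow, map_prod, map_zpow₀, map_ratCast, norm_pow, norm_prod,
      norm_zpow] at h1
    have h2 : (∏ x : f.rootSet f.SplittingField, ‖φ x.1‖ ^ c x) ^ 2 = (q : ℝ) ^ (∑ x, c x) := by
      rw [← hprodq ℝ q (by exact_mod_cast hq.ne'), ← Finset.prod_pow]
      refine Finset.prod_congr rfl fun x _ => ?_
      rw [← zpow_natCast, ← zpow_mul, mul_comm, zpow_mul, zpow_natCast, hweil _ (root_map φ x)]
    rw [← pow_mul, mul_comm n 2, pow_mul, h2, ← zpow_natCast, ← zpow_mul] at h1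
    have h3 : ‖((q : ℚ) : ℂ)‖ = (q : ℝ) := by
      have : ((q : ℚ) : ℂ) = ((q : ℝ) : ℂ) := by push_cast; rfl
      rw [this, Complex.norm_real, Real.norm_of_nonneg (by exact_mod_cast hq.le)]
    rw [h3, ← zpow_natCast, ← zpow_mul] at h1
    have h4 := zpow_right_injective₀ (by exact_mod_cast hq) (by exact_mod_cast hq1) h1
    simp only [Nat.cast_ofNat] at h4
    linarith
  have h1 : mon f (fun x => c x - c (si hf hq hweil x)) = mon f c ^ 2 / (q : f.SplittingField) ^ (∑ x, c x) := by
    have h2 : mon f (fun x => c (si hf hq hweil x)) =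
        (q : f.SplittingField) ^ (∑ x, c x) / mon f c := by
      rw [← hprodq _ _ hq0, mon_def, mon_def, ← Finset.prod_div_distrib]
      refine Fintype.prod_bijective (si hf hq hweil)
        (Function.Involutive.bijective (si_si hf hq hweil)) _ _ fun x => ?_
      have hx := rne hf hq hweil x
      rw [si_coe, div_zpow, div_div_eq_mul_div]
      rw [eq_div_iff (zpow_ne_zero _ hq0), mul_comm]
    have h3 : mon f (fun x => c x - c (si hf hq hweil x)) =
        mon f c / mon f (fun x => c (si hf hq hweil x)) := by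
      rw [mon_def, mon_def, mon_def, ← Finset.prod_div_distrib]
      refine Finset.prod_congr rfl fun x _ => ?_
      rw [zpow_sub₀ (rne hf hq hweil x)]
    have h4 : mon f c ≠ 0 :=
      Finset.prod_ne_zero_iff.2 fun x _ => zpow_ne_zero _ (rne hf hq hweil x)
    rw [h3, h2]
    field_simp
  rw [h1, div_pow, ← pow_mul, mul_comm 2 n, pow_mul, h, ← zpow_natCast, ← zpow_mul,
    ← zpow_natCast, ← zpow_mul]
  rw [div_eq_one_iff_eq (zpow_ne_zero _ hq0)]
  congr 1
  push_cast
  linarith

/-- **Main theorem on relations.** -/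
theorem no_rel (hint : ∀ x : f.SplittingField, aeval x f = 0 → IsIntegral ℤ x)
    (hfix : ∀ x, si hf hq hweil x ≠ x)
    (p a : ℕ) [Fact p.Prime] (hqp : q = (p : ℚ) ^ a)
    (e : f.SplittingField →ₐ[ℚ] PadicAlgCl p) (κ : ℝ) (hκ : κ ≠ 0) (U : PadicAlgCl p → ℤ)
    (hU : ∀ α : PadicAlgCl p, aeval α f = 0 → dev p q α = κ * U α)
    (r : ℕ) (hr : 1 ≤ r) (hur : ∑ x : f.rootSet f.SplittingField, |U (e x.1)| ≤ 2 * (r : ℤ))
    (l : ℕ) [Fact l.Prime] (hl : Odd l) (P : Subgroup f.Gal) (hP : IsPGroup l P) (m : ℕ)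
    (hm : Nat.card (orbitRel.Quotient P (f.rootSet f.SplittingField)) ≤ 2 * m) (hrl : r ^ m < l)
    (hno : ∀ b : f.rootSet f.SplittingField → ℤ, (∀ σ ∈ P, ∀ x, b (σ • x) = b x) →
      (∀ x, b (si hf hq hweil x) = -b x) → (∀ x, |b x| ≤ (r : ℤ) ^ (m - 1)) → (∃ x, b x ≠ 0) →
      ∀ n, 0 < n → mon f b ^ n ≠ 1)
    (c : f.rootSet f.SplittingField → ℤ) (hc : ∀ x, c (si hf hq hweil x) = -c x)
    (n : ℕ) (hn : 0 < n) (hcn : mon f c ^ n = 1) (x : f.rootSet f.SplittingField) : c x = 0 := by
  classical
  by_contra hx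
  have hroot : ∀ x : f.rootSet f.SplittingField, aeval (e x.1) f = 0 := fun x => root_map e x
  have hUa : ∀ x, U (e (si hf hq hweil x).1) = -U (e x.1) := by
    intro x
    have h1 := dev_si hf hq hweil p e x
    rw [hU _ (hroot _), hU _ (hroot _), ← mul_neg] at h1
    have h2 := mul_left_cancel₀ hκ h1
    exact_mod_cast h2
  have key : ∀ (c : f.rootSet f.SplittingField → ℤ) (g : f.Gal),
      ∑ x : f.rootSet f.SplittingField, (c x : ℝ) *
        dev p q (e (g • x : f.rootSet f.SplittingField).1) =
      κ * ((∑ x, c x * U (e (g • x : f.rootSet f.SplittingField).1) : ℤ) : ℝ) := by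
    intro c g
    push_cast
    rw [Finset.mul_sum]
    refine Finset.sum_congr rfl fun x _ => ?_
    rw [hU _ (hroot _)]
    ring
  have hrel : Rel f.Gal (si hf hq hweil) (fun x => U (e x.1)) c := by
    refine ⟨hc, fun g => ?_⟩
    have h1 := sum_dev hf hq hweil hn hcn (sum_anti hf hq hweil hc) p e g
    rw [key] at h1
    exact_mod_cast (mul_eq_zero.1 h1).resolve_left hκ
  obtain ⟨b, hb, hb0, hbP, hbr⟩ := exists_inv (si_si hf hq hweil) hfix (sm_si hf hq hweil) l hl P hP
    m r hm hr hUa hur hrl hrel ⟨x, hx⟩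
  obtain ⟨n', hn', hbn⟩ := pow_one hf hq hweil hint p a hqp e hb.1 (fun g => by
    rw [key, hb.2 g, Int.cast_zero, mul_zero])
  exact hno b hbP hb.1 hbr hb0 n' hn' hbn

end

/-- The number of orbits of a Sylow subgroup on a transitive set. -/
theorem card_orbits_le {G B : Type*} [Group G] [Finite G] [MulAction G B] [Finite B]
    [IsPretransitive G B] (l k m : ℕ) [Fact l.Prime] (hB : Nat.card B = 2 * m * l ^ k)
    (S : Sylow l G) : Nat.card (orbitRel.Quotient S B) ≤ 2 * m := by
  classical
  have hdvd : ∀ x : B, l ^ k ≤ Nat.card (orbit S x) := by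
    intro x
    have hH : (stabilizer G x).index = Nat.card B := index_stabilizer_of_transitive G x
    have h1 : (stabilizer G x ⊓ (S : Subgroup G)).relIndex (S : Subgroup G) *
        (S : Subgroup G).index = (stabilizer G x ⊓ (S : Subgroup G)).index :=
      Subgroup.relIndex_mul_index inf_le_right
    have h2 : (stabilizer G x ⊓ (S : Subgroup G)).relIndex (stabilizer G x) *
        (stabilizer G x).index = (stabilizer G x ⊓ (S : Subgroup G)).index :=
      Subgroup.relIndex_mul_index inf_le_left
    have h3 : l ^ k ∣ (stabilizer G x ⊓ (S : Subgroup G)).relIndex (S : Subgroup G) := by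
      have h4 : l ^ k ∣ (stabilizer G x ⊓ (S : Subgroup G)).relIndex (S : Subgroup G) *
          (S : Subgroup G).index := by
        rw [h1, ← h2, hH, hB]
        exact Dvd.intro_left _ (by rw [← mul_assoc])
      have h5 : Nat.Coprime (l ^ k) (S : Subgroup G).index :=
        (((Fact.out : l.Prime).coprime_iff_not_dvd).2 S.not_dvd_index).pow_left k
      exact h5.dvd_of_dvd_mul_right h4
    rw [Subgroup.inf_relIndex_right] at h3
    have h6 : (stabilizer G x).relIndex (S : Subgroup G) = Nat.card (orbit S x) := by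
      rw [← Nat.card_congr (orbitEquivQuotientStabilizer S x).symm]
      rfl
    rw [h6] at h3
    have hpos : 0 < Nat.card (orbit S x) := by
      have : Nonempty (orbit S x) := ⟨⟨x, mem_orbit_self x⟩⟩
      exact Nat.card_pos
    exact Nat.le_of_dvd hpos h3
  have _ : Fintype B := Fintype.ofFinite B
  let Q := orbitRel.Quotient S B
  have _ : Fintype Q := Fintype.ofFinite Q
  have h7 : Nat.card B = ∑ q : Q, Nat.card {x : B // (Quotient.mk _ x : Q) = q} := by
    rw [Nat.card_eq_fintype_card, ← Fintype.card_congr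
      (Equiv.sigmaFiberEquiv (fun x : B => (Quotient.mk _ x : Q))), Fintype.card_sigma]
    exact Finset.sum_congr rfl fun q _ => Nat.card_eq_fintype_card.symm
  have h8 : ∀ q : Q, l ^ k ≤ Nat.card {x : B // (Quotient.mk _ x : Q) = q} := by
    intro q
    obtain ⟨y, rfl⟩ := Quotient.exists_rep q
    refine (hdvd y).trans (le_of_eq ?_)
    refine Nat.card_congr (Equiv.subtypeEquivRight fun x => ?_)
    exact (Quotient.eq (r := orbitRel S B)).symm
  have h9 : Fintype.card Q * l ^ k ≤ 2 * m * l ^ k := by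
    rw [← hB, h7]
    calc Fintype.card Q * l ^ k = ∑ _q : Q, l ^ k := by
          rw [Finset.sum_const, Finset.card_univ, smul_eq_mul]
      _ ≤ _ := Finset.sum_le_sum fun q _ => h8 q
  have h10 : 0 < l ^ k := pow_pos (Fact.out : l.Prime).pos k
  rw [Nat.card_eq_fintype_card]
  exact Nat.le_of_mul_le_mul_right h9 h10

end Pool.Agent.D0H66.MK
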