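import Mathlib
import Pool.Agent.D0H66.MK.Main

/-!
# Multiplicative relations give exceptional classes
-/

set_option autoImplicit false
set_option linter.unusedSectionVars false

namespace Pool.Agent.D0H66.MK

open Polynomial Pool.Agent.H925R2 ExteriorAlgebra

section lin

variable {K V : Type*} [Field K] [AddCommGroup V] [Module K V]

theorem iMulti_ne {n : ℕ} {v : Fin n → V} (hv : LinearIndependent K v) :
    ExteriorAlgebra.ιMulti K n v ≠ 0 := by
  classical
  let s : Set.powersetCard (Fin n) n := ⟨Finset.univ, by simp⟩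
  let σ : Fin n → Fin n := Set.powersetCard.ofFinEmbEquiv.symm s
  have hσ : Function.Bijective σ :=
    Finite.injective_iff_bijective.1 (Set.powersetCard.ofFinEmbEquiv.symm s).injective
  let e := Equiv.ofBijective σ hσ
  have h1 : LinearIndependent K (v ∘ e.symm) := hv.comp _ e.symm.injective
  have h2 := (exteriorPower.ιMulti_family_linearIndependent_field n h1).ne_zero s
  intro h3
  apply h2
  apply Subtype.ext
  rw [exteriorPower.ιMulti_family_apply_coe]
  change ExteriorAlgebra.ιMulti K n ((v ∘ e.symm) ∘ σ) = 0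
  have h4 : (v ∘ e.symm) ∘ σ = v := by
    funext i
    exact congrArg v (e.symm_apply_apply i)
  rw [h4, h3]

/-- a polynomial in `F` with prescribed eigenvalues -/
theorem exists_op (F : V →ₗ[K] V) (E : Finset K) (t : K → K) :
    ∃ G : V →ₗ[K] V, ∀ μ ∈ E, ∀ v, F v = μ • v → G v = t μ • v := by
  classical
  let Q : K[X] := Lagrange.interpolate E id t
  refine ⟨aeval F Q, fun μ hμ v hv => ?_⟩
  have h1 : Q.eval μ = t μ := Lagrange.eval_interpolate_at_node (v := id) t
    (Function.injective_id.injOn) hμ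
  by_cases h0 : v = 0
  · rw [h0, map_zero, smul_zero]
  · rw [Module.End.aeval_apply_of_hasEigenvector ⟨Module.End.mem_eigenspace_iff.2 hv, h0⟩, h1]

theorem map_iMulti_eig (G : V →ₗ[K] V) {n : ℕ} (a : Fin n → V) (μ : Fin n → K)
    (h : ∀ i, G (a i) = μ i • a i) :
    ExteriorAlgebra.map G (ExteriorAlgebra.ιMulti K n a) =
      (∏ i, μ i) • ExteriorAlgebra.ιMulti K n a := by
  rw [ExteriorAlgebra.map_apply_ιMulti]
  have : (⇑G ∘ a) = fun i => μ i • a i := funext h
  rw [this]
  exact AlternatingMap.map_smul_univ _ _ _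

/-- An operator with `t μ t (q / μ) = 1` acts trivially on the subalgebra generated by the classes of
degree two. -/
theorem map_adjoin (F G : V →ₗ[K] V) (q : K) (E : Set K) (t : K → K)
    (hspan : Submodule.span K {v : V | ∃ μ ∈ E, F v = μ • v} = ⊤)
    (hG : ∀ μ ∈ E, ∀ v, F v = μ • v → G v = t μ • v)
    (ht : ∀ μ ∈ E, ∀ ν ∈ E, μ * ν = q → t μ * t ν = 1)
    {y : ExteriorAlgebra K V} (hy : y ∈ Algebra.adjoin K (deg2 F q)) :
    ExteriorAlgebra.map G y = y := by
  classical
  have h2 : ∀ y ∈ deg2 F q, ExteriorAlgebra.map G y = y := by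
    rintro y ⟨hy2, hyq⟩
    have hsp := exteriorPower.ιMulti_span_fixedDegree_of_span_eq_top K 2 V hspan
    set T : Set (ExteriorAlgebra K V) :=
      {y | ∃ a : Fin 2 → V, (∀ j, a j ∈ {v : V | ∃ μ ∈ E, F v = μ • v}) ∧
        ExteriorAlgebra.ιMulti K 2 a = y} with hT
    have hTspan : y ∈ Submodule.span K T := by
      rw [← hsp] at hy2
      refine Submodule.span_mono ?_ hy2
      rintro _ ⟨a, ha, rfl⟩
      exact ⟨a, fun j => ha ⟨j, rfl⟩, rfl⟩
    have hmem := mem_span_eigen (ExteriorAlgebra.map F).toLinearMap T (by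
      rintro t ⟨a, ha, rfl⟩
      choose μ hμ1 hμ2 using ha
      exact ⟨_, map_iMulti_eig F a μ hμ2⟩) q y hTspan hyq
    have hle : Submodule.span K {t ∈ T | (ExteriorAlgebra.map F).toLinearMap t = q • t} ≤
        LinearMap.eqLocus (ExteriorAlgebra.map G).toLinearMap LinearMap.id := by
      rw [Submodule.span_le]
      rintro t' ⟨⟨a, ha, rfl⟩, hta⟩
      choose μ hμ1 hμ2 using ha
      have hta' : (∏ i, μ i) • ExteriorAlgebra.ιMulti K 2 a = q • ExteriorAlgebra.ιMulti K 2 a := by
        rw [← map_iMulti_eig F a μ hμ2]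
        exact hta
      rw [SetLike.mem_coe, LinearMap.mem_eqLocus, AlgHom.toLinearMap_apply]
      rw [map_iMulti_eig G a (fun i => t (μ i)) (fun i => hG _ (hμ1 i) _ (hμ2 i))]
      by_cases h0 : ExteriorAlgebra.ιMulti K 2 a = 0
      · rw [h0, smul_zero]
        rfl
      · have h3 : ∏ i, μ i = q := smul_left_injective K h0 hta'
        rw [Fin.prod_univ_two] at h3 ⊢
        rw [ht _ (hμ1 0) _ (hμ1 1) h3, one_smul]
        rfl
    exact hle hmem
  have h3 : Algebra.adjoin K (deg2 F q) ≤
      AlgHom.equalizer (ExteriorAlgebra.map G) (AlgHom.id K (ExteriorAlgebra K V)) :=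
    Algebra.adjoin_le fun y hy => h2 y hy
  exact h3 hy

end lin

section

variable {f : ℚ[X]} (hf : f.Separable) {q : ℚ} (hq : 0 < q)
  (hweil : ∀ z : ℂ, aeval z f = 0 → ‖z‖ ^ 2 = (q : ℝ))

/-- **A relation gives an exceptional class.** -/
theorem exotic {Ω : Type*} [Field Ω] [CharZero Ω] [IsAlgClosed Ω] {V : Type*} [AddCommGroup V]
    [Module Ω V] (F : V →ₗ[Ω] V)
    (hspan : Submodule.span Ω {v : V | ∃ μ ∈ {μ : Ω | aeval μ f = 0}, F v = μ • v} = ⊤) (M : ℕ)
    (hM : ∀ μ : Ω, aeval μ f = 0 → ∃ w : Fin M → V, LinearIndependent Ω w ∧ ∀ i, F (w i) = μ • w i)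
    (b : f.rootSet f.SplittingField → ℤ) (hb : ∀ x, b (si hf hq hweil x) = -b x)
    (hb0 : ∃ x, b x ≠ 0) (hbM : ∀ x, 2 * |b x| ≤ (M : ℤ)) (n : ℕ) (hbn : mon f b ^ n = 1) :
    ∃ (m : ℕ) (y : ExteriorAlgebra Ω V), y ∈ ⋀[Ω]^(2 * m) V ∧
      ExteriorAlgebra.map (F ^ n) y = ((q : Ω) ^ m) ^ n • y ∧
      y ∉ Algebra.adjoin Ω (deg2 F (q : Ω)) := by
  classical
  let j : f.SplittingField →ₐ[ℚ] Ω := IsAlgClosed.lift
  have hq0 : (q : f.SplittingField) ≠ 0 := by exact_mod_cast hq.ne'
  let R := f.rootSet f.SplittingField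
  let c : R → ℕ := fun x => 2 * (b x).toNat
  have hcM : ∀ x, c x ≤ M := by
    intro x
    have h1 := hbM x
    have h2 : ((b x).toNat : ℤ) ≤ |b x| := by
      rw [Int.toNat_eq_max]
      exact max_le (le_abs_self _) (abs_nonneg _)
    have h3 : ((2 * (b x).toNat : ℕ) : ℤ) ≤ M := by
      push_cast
      linarith
    exact_mod_cast h3
  set m := ∑ x, (b x).toNat with hm
  have hsum : ∑ x, c x = 2 * m := by rw [hm, Finset.mul_sum]
  -- the product of the eigenvalues
  have hprod : ∏ x : R, (x : f.SplittingField) ^ c x = mon f b * (q : f.SplittingField) ^ m := by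
    have h1 : ∏ x : R, ((si hf hq hweil x : R) : f.SplittingField) ^ (b (si hf hq hweil x)).toNat =
        ∏ x : R, (x : f.SplittingField) ^ (b x).toNat :=
      Fintype.prod_bijective (si hf hq hweil)
        (Function.Involutive.bijective (si_si hf hq hweil)) _ _ fun x => rfl
    have h2 : ∏ x : R, (q : f.SplittingField) ^ (b (si hf hq hweil x)).toNat =
        (q : f.SplittingField) ^ m := by
      rw [Finset.prod_pow_eq_pow_sum]
      congr 1
      exact Fintype.sum_bijective (si hf hq hweil)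
        (Function.Involutive.bijective (si_si hf hq hweil)) _ _ fun x => rfl
    have h3 : ∏ x : R, (x : f.SplittingField) ^ c x =
        (∏ x : R, (x : f.SplittingField) ^ (b x).toNat) *
          ∏ x : R, (x : f.SplittingField) ^ (b x).toNat := by
      rw [← Finset.prod_mul_distrib]
      refine Finset.prod_congr rfl fun x _ => ?_
      rw [← pow_add]
      congr 1
      change 2 * _ = _
      ring
    rw [h3]
    nth_rw 2 [← h1]
    rw [← h2, mon_def, ← Finset.prod_mul_distrib, ← Finset.prod_mul_distrib]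
    refine Finset.prod_congr rfl fun x _ => ?_
    have hx := rne hf hq hweil x
    rw [si_coe, div_pow, hb]
    have h4 : b x = ((b x).toNat : ℤ) - ((-b x).toNat : ℤ) := (Int.toNat_sub_toNat_neg (b x)).symm
    have h5 : (x : f.SplittingField) ^ b x =
        (x : f.SplittingField) ^ (b x).toNat / (x : f.SplittingField) ^ (-b x).toNat := by
      conv_lhs => rw [h4]
      rw [zpow_sub₀ hx, zpow_natCast, zpow_natCast]
    rw [h5]
    ring
  -- the vectors
  choose w hw1 hw2 using fun x : R => hM (j x.1) (root_map j x)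
  let I := Σ x : R, Fin (c x)
  let W : I → V := fun i => w i.1 (Fin.castLE (hcM i.1) i.2)
  have hWF : ∀ i : I, F (W i) = j i.1.1 • W i := fun i => hw2 _ _
  have hinj : Function.Injective (fun x : R => j x.1) := fun a b h => Subtype.ext (j.injective h)
  have hWli : LinearIndependent Ω W := by
    refine linearIndependent_iUnion_finite (f := fun (x : R) (i : Fin (c x)) =>
      w x (Fin.castLE (hcM x) i)) (fun x => (hw1 x).comp _ (Fin.castLE_injective _)) ?_
    intro x t _ hxt
    have h1 := ((Module.End.eigenspaces_iSupIndep F).comp hinj).disjoint_biSup hxt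
    refine h1.mono ?_ ?_
    · rw [Submodule.span_le]
      rintro _ ⟨i, rfl⟩
      exact Module.End.mem_eigenspace_iff.2 (hw2 x _)
    · refine iSup₂_mono fun y _ => ?_
      rw [Submodule.span_le]
      rintro _ ⟨i, rfl⟩
      exact Module.End.mem_eigenspace_iff.2 (hw2 y _)
  have hcardI : Fintype.card I = 2 * m := by
    rw [Fintype.card_sigma]
    simp only [Fintype.card_fin]
    exact hsum
  let e : Fin (2 * m) ≃ I := (Fintype.equivFinOfCardEq hcardI).symm
  let y := ExteriorAlgebra.ιMulti Ω (2 * m) (W ∘ e)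
  have hy0 : y ≠ 0 := iMulti_ne (hWli.comp _ e.injective)
  -- products over the vectors
  have hpr : ∀ t : R → Ω, ∏ i, t (e i).1 = ∏ x, t x ^ c x := by
    intro t
    rw [Equiv.prod_comp e (fun i => t i.1), Fintype.prod_sigma]
    refine Finset.prod_congr rfl fun x _ => ?_
    change ∏ _y : Fin (c x), t x = _
    rw [Finset.prod_const, Finset.card_univ, Fintype.card_fin]
  refine ⟨m, y, ?_, ?_, ?_⟩
  · exact (exteriorPower.ιMulti Ω (2 * m) (W ∘ e)).2
  · have hpow : ∀ (v : V) (μ : Ω), F v = μ • v → (F ^ n) v = μ ^ n • v := by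
      intro v μ h
      clear hbn
      induction n with
      | zero => simp
      | succ n ih => rw [pow_succ', Module.End.mul_apply, ih, map_smul, h, smul_smul, pow_succ]
    rw [map_iMulti_eig (F ^ n) (W ∘ e) (fun i => (j (e i).1.1) ^ n) (fun i => hpow _ _ (hWF (e i)))]
    rw [hpr (fun x => (j x.1) ^ n)]
    congr 1
    have h1 := congrArg j hprod
    rw [map_prod, map_mul, map_pow, map_ratCast] at h1
    have h2 : ∏ x : R, (j x.1 ^ n) ^ c x = (∏ x : R, j ((x : f.SplittingField) ^ c x)) ^ n := by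
      rw [← Finset.prod_pow]
      refine Finset.prod_congr rfl fun x _ => ?_
      rw [map_pow]
      ring
    rw [h2, h1, mul_pow, ← map_pow, hbn, map_one, one_mul]
  · intro hmem
    let t : Ω → Ω := fun μ => if h : ∃ x : R, j x.1 = μ then (2 : Ω) ^ b h.choose else 1
    have ht : ∀ x : R, t (j x.1) = (2 : Ω) ^ b x := by
      intro x
      have h : ∃ x' : R, j x'.1 = j x.1 := ⟨x, rfl⟩
      simp only [t]
      rw [dif_pos h]
      congr 2
      exact hinj h.choose_spec
    obtain ⟨G, hG⟩ := exists_op F (Finset.univ.image fun x : R => j x.1) t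
    have h2 := map_adjoin F G (q : Ω) {μ : Ω | aeval μ f = 0} t hspan (by
      intro μ hμ v hv
      obtain ⟨x, rfl⟩ := ex_root hf j μ hμ
      exact hG _ (Finset.mem_image_of_mem _ (Finset.mem_univ x)) v hv) (by
      intro μ hμ ν hν hμν
      obtain ⟨x, rfl⟩ := ex_root hf j μ hμ
      obtain ⟨x', rfl⟩ := ex_root hf j ν hν
      have hx' : x' = si hf hq hweil x := by
        apply Subtype.ext
        rw [si_coe]
        apply j.injective
        rw [map_div₀, map_ratCast, eq_div_iff, mul_comm]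
        · exact hμν
        · intro h
          exact rne hf hq hweil x ((map_eq_zero j).1 h)
      rw [ht, ht, hx', hb, ← zpow_add₀ two_ne_zero, add_neg_cancel, zpow_zero]) hmem
    rw [map_iMulti_eig G (W ∘ e) (fun i => t (j (e i).1.1)) (fun i =>
      hG _ (Finset.mem_image_of_mem _ (Finset.mem_univ (e i).1)) _ (hWF (e i))),
      hpr (fun x => t (j x.1))] at h2
    have h3 : (∏ x : R, t (j x.1) ^ c x) = 1 := by
      have h4 : (∏ x : R, t (j x.1) ^ c x) • y = (1 : Ω) • y := by rw [one_smul]; exact h2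
      exact smul_left_injective Ω hy0 h4
    have h5 : ∏ x : R, t (j x.1) ^ c x = (2 : Ω) ^ (2 * ∑ x, (b x).toNat ^ 2) := by
      rw [Finset.mul_sum, ← Finset.prod_pow_eq_pow_sum]
      refine Finset.prod_congr rfl fun x _ => ?_
      rw [ht]
      rcases le_total 0 (b x) with h | h
      · obtain ⟨k, hk⟩ := Int.eq_ofNat_of_zero_le h
        simp only [c]
        rw [hk, zpow_natCast, Int.toNat_natCast, ← pow_mul]
        congr 1
        ring
      · simp only [c]
        rw [Int.toNat_of_nonpos h]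
        simp
    rw [h5] at h3
    obtain ⟨x₀, hx₀⟩ := hb0
    have h6 : 0 < ∑ x, (b x).toNat ^ 2 := by
      have h7 : ∃ x : R, 0 < b x := by
        rcases lt_or_gt_of_ne hx₀ with h | h
        · exact ⟨si hf hq hweil x₀, by rw [hb]; omega⟩
        · exact ⟨x₀, h⟩
      obtain ⟨x, hx⟩ := h7
      refine Finset.sum_pos' (fun _ _ => Nat.zero_le _) ⟨x, Finset.mem_univ _, ?_⟩
      have : 0 < (b x).toNat := by omega
      positivity
    have h8 : (2 : ℕ) ^ (2 * ∑ x, (b x).toNat ^ 2) = 1 := by exact_mod_cast h3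
    rw [Nat.pow_eq_one] at h8
    omega

end

end Pool.Agent.D0H66.MK
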