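import Mathlib
import Pool.Agent.D0H66.MK.Conv

/-!
# The number of orbits of a Sylow subgroup of the Galois group on the roots
-/

set_option autoImplicit false

namespace Pool.Agent.D0H66.MK

open Polynomial MulAction

theorem index_eq {F : Type*} [Field F] {f : F[X]} (hf : f.Separable)
    (x : f.rootSet f.SplittingField) :
    (stabilizer f.Gal x).index = (minpoly F x.1).natDegree := by
  classical
  have hn : Normal F f.SplittingField := Normal.of_isSplittingField f
  have hx := (mem_rootSet.1 x.2).2
  have hdvd : minpoly F x.1 ∣ f := minpoly.dvd F _ hx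
  have hsep : (minpoly F x.1).Separable := hf.of_dvd hdvd
  have hint : IsIntegral F x.1 := Algebra.IsIntegral.isIntegral _
  have hsplit : ((minpoly F x.1).map (algebraMap F f.SplittingField)).Splits :=
    hn.splits x.1
  rw [index_stabilizer, ← card_rootSet_eq_natDegree hsep hsplit, ← Nat.card_eq_fintype_card]
  refine Nat.card_congr (Equiv.ofBijective (fun y : orbit f.Gal x => ⟨y.1.1, ?_⟩) ⟨?_, ?_⟩)
  · rw [mem_rootSet]
    refine ⟨minpoly.ne_zero hint, ?_⟩
    obtain ⟨⟨y, hy'⟩, g, hg⟩ := y
    have hg' : g x.1 = y := congrArg Subtype.val hg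
    change aeval y _ = 0
    rw [← hg']
    let g' : f.SplittingField ≃ₐ[F] f.SplittingField := g
    have h1 : aeval (g'.toAlgHom x.1) (minpoly F x.1) =
        g'.toAlgHom (aeval x.1 (minpoly F x.1)) :=
      aeval_algHom_apply g'.toAlgHom x.1 _
    rw [minpoly.aeval, map_zero] at h1
    exact h1
  · intro y z h
    apply Subtype.ext
    apply Subtype.ext
    exact congrArg (fun w : (minpoly F x.1).rootSet f.SplittingField => w.1) h
  · rintro ⟨y, hy⟩
    have hy0 := (mem_rootSet.1 hy).2
    have h1 : minpoly F x.1 = minpoly F y :=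
      minpoly.eq_of_irreducible_of_monic (minpoly.irreducible hint) hy0 (minpoly.monic hint)
    obtain ⟨g, hg⟩ := (Normal.minpoly_eq_iff_mem_orbit f.SplittingField).mp h1.symm
    have hyf : y ∈ f.rootSet f.SplittingField := by
      rw [mem_rootSet]
      refine ⟨hf.ne_zero, ?_⟩
      obtain ⟨k, hk⟩ := hdvd
      have h2 := congrArg (aeval y) hk
      rw [map_mul, hy0, zero_mul] at h2
      exact h2
    exact ⟨⟨⟨y, hyf⟩, g, Subtype.ext hg⟩, rfl⟩

/-- The number of orbits of a Sylow subgroup if a power of `l` divides the size of all orbits. -/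
theorem card_orbits_le' {G B : Type*} [Group G] [Finite G] [MulAction G B] [Finite B]
    (l k m : ℕ) [Fact l.Prime] (hB : Nat.card B ≤ 2 * m * l ^ k)
    (hd : ∀ x : B, l ^ k ∣ (stabilizer G x).index)
    (S : Sylow l G) : Nat.card (orbitRel.Quotient S B) ≤ 2 * m := by
  classical
  have hdvd : ∀ x : B, l ^ k ≤ Nat.card (orbit S x) := by
    intro x
    have h1 : (stabilizer G x ⊓ (S : Subgroup G)).relIndex (S : Subgroup G) *
        (S : Subgroup G).index = (stabilizer G x ⊓ (S : Subgroup G)).index :=
      Subgroup.relIndex_mul_index inf_le_right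
    have h2 : (stabilizer G x ⊓ (S : Subgroup G)).relIndex (stabilizer G x) *
        (stabilizer G x).index = (stabilizer G x ⊓ (S : Subgroup G)).index :=
      Subgroup.relIndex_mul_index inf_le_left
    have h3 : l ^ k ∣ (stabilizer G x ⊓ (S : Subgroup G)).relIndex (S : Subgroup G) := by
      have h4 : l ^ k ∣ (stabilizer G x ⊓ (S : Subgroup G)).relIndex (S : Subgroup G) *
          (S : Subgroup G).index := by
        rw [h1, ← h2]
        exact (hd x).mul_left _
      have h5 : Nat.Coprime (l ^ k) (S : Subgroup G).index :=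
        (((Fact.out : l.Prime).coprime_iff_not_dvd).2 S.not_dvd_index).pow_left k
      exact h5.dvd_of_dvd_mul_right h4
    rw [Subgroup.inf_relIndex_right] at h3
    have h6 : (stabilizer G x).relIndex (S : Subgroup G) = Nat.card (orbit S x) := by
      rw [← Nat.card_congr (orbitEquivQuotientStabilizer S x).symm]
      rfl
    rw [h6] at h3
    have hpos : 0 < Nat.card (orbit S x) := by
      have : Nonempty (orbit S x) := ⟨⟨x, mem_orbit_self x⟩⟩
      exact Nat.card_pos
    exact Nat.le_of_dvd hpos h3
  have _ : Fintype B := Fintype.ofFinite B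
  let Q := orbitRel.Quotient S B
  have _ : Fintype Q := Fintype.ofFinite Q
  have h7 : Nat.card B = ∑ q : Q, Nat.card {x : B // (Quotient.mk _ x : Q) = q} := by
    rw [Nat.card_eq_fintype_card, ← Fintype.card_congr
      (Equiv.sigmaFiberEquiv (fun x : B => (Quotient.mk _ x : Q))), Fintype.card_sigma]
    exact Finset.sum_congr rfl fun q _ => Nat.card_eq_fintype_card.symm
  have h8 : ∀ q : Q, l ^ k ≤ Nat.card {x : B // (Quotient.mk _ x : Q) = q} := by
    intro q
    obtain ⟨y, rfl⟩ := Quotient.exists_rep q
    refine (hdvd y).trans (le_of_eq ?_)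
    refine Nat.card_congr (Equiv.subtypeEquivRight fun x => ?_)
    exact (Quotient.eq (r := orbitRel S B)).symm
  have h9 : Fintype.card Q * l ^ k ≤ 2 * m * l ^ k := by
    refine le_trans ?_ hB
    rw [h7]
    calc Fintype.card Q * l ^ k = ∑ _q : Q, l ^ k := by
          rw [Finset.sum_const, Finset.card_univ, smul_eq_mul]
      _ ≤ _ := Finset.sum_le_sum fun q _ => h8 q
  have h10 : 0 < l ^ k := pow_pos (Fact.out : l.Prime).pos k
  rw [Nat.card_eq_fintype_card]
  exact Nat.le_of_mul_le_mul_right h9 h10

/-- The number of orbits on the roots of `f`, if `l ^ k` divides the degrees of all irreducible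
factors of `f`. -/
theorem card_root_orbits_le {F : Type*} [Field F] {f : F[X]} (hf : f.Separable) (l k m : ℕ)
    [Fact l.Prime] (hdeg : f.natDegree ≤ 2 * m * l ^ k)
    (hirr : ∀ h : F[X], Irreducible h → h ∣ f → l ^ k ∣ h.natDegree) (S : Sylow l f.Gal) :
    Nat.card (orbitRel.Quotient S (f.rootSet f.SplittingField)) ≤ 2 * m := by
  classical
  have hn : Normal F f.SplittingField := Normal.of_isSplittingField f
  refine card_orbits_le' l k m ?_ ?_ S
  · rw [Nat.card_eq_fintype_card, card_rootSet_eq_natDegree hf (SplittingField.splits f)]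
    exact hdeg
  · intro x
    rw [index_eq hf]
    have hint : IsIntegral F x.1 := Algebra.IsIntegral.isIntegral _
    exact hirr _ (minpoly.irreducible hint) (minpoly.dvd F _ (mem_rootSet.1 x.2).2)

end Pool.Agent.D0H66.MK
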